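import Mathlib

/-!
# Affine groups over finite fields of characteristic two: automorphisms fixing a translation
-/

namespace Pool.Agent.X265.LI

/-- the affine group of a field: `⟨v, a⟩` is the map `x ↦ a x + v` -/
@[ext] structure Aff (F : Type) [Field F] where
  /-- translation part -/
  v : F
  /-- linear part -/
  a : Fˣ

namespace Aff

variable {F : Type} [Field F]

instance : Mul (Aff F) := ⟨fun x y => ⟨x.v + x.a * y.v, x.a * y.a⟩⟩
instance : One (Aff F) := ⟨⟨0, 1⟩⟩
instance : Inv (Aff F) := ⟨fun x => ⟨-((x.a⁻¹ : Fˣ) * x.v), x.a⁻¹⟩⟩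

@[simp] lemma mul_v (x y : Aff F) : (x * y).v = x.v + x.a * y.v := rfl
@[simp] lemma mul_a (x y : Aff F) : (x * y).a = x.a * y.a := rfl
@[simp] lemma one_v : (1 : Aff F).v = 0 := rfl
@[simp] lemma one_a : (1 : Aff F).a = 1 := rfl
@[simp] lemma inv_v (x : Aff F) : (x⁻¹).v = -((x.a⁻¹ : Fˣ) * x.v) := rfl
@[simp] lemma inv_a (x : Aff F) : (x⁻¹).a = x.a⁻¹ := rfl

instance : Group (Aff F) := Group.ofLeftAxioms
  (by intro x y z; ext <;> simp [mul_assoc]; ring)
  (by intro x; ext <;> simp)
  (by intro x; ext <;> simp)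

/-- translations -/
def tr (v : F) : Aff F := ⟨v, 1⟩
/-- dilations -/
def dl (a : Fˣ) : Aff F := ⟨0, a⟩

@[simp] lemma tr_v (v : F) : (tr v).v = v := rfl
@[simp] lemma tr_a (v : F) : (tr v).a = 1 := rfl
@[simp] lemma dl_v (a : Fˣ) : (dl a).v = 0 := rfl
@[simp] lemma dl_a (a : Fˣ) : (dl a).a = a := rfl

lemma eq_tr_mul_dl (x : Aff F) : x = tr x.v * dl x.a := by ext <;> simp
lemma tr_add (v w : F) : tr (v + w) = tr v * tr w := by ext <;> simp
lemma tr_zero : tr (0 : F) = 1 := rfl
lemma dl_mul (a b : Fˣ) : dl (a * b) = dl a * dl b := by ext <;> simp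
lemma dl_conj (a : Fˣ) (v : F) : dl a * tr v = tr (a * v) * dl a := by ext <;> simp

/-- equivalence with the product -/
def equivProd : Aff F ≃ F × Fˣ := ⟨fun x => (x.v, x.a), fun p => ⟨p.1, p.2⟩, fun _ => rfl, fun _ => rfl⟩

instance [Finite F] : Finite (Aff F) := Finite.of_equiv _ equivProd.symm

lemma natCard [Finite F] : Nat.card (Aff F) = Nat.card F * (Nat.card F - 1) := by
  rw [Nat.card_congr equivProd, Nat.card_prod]
  congr 1
  have := Fintype.ofFinite F
  classical
  rw [Nat.card_eq_fintype_card, Nat.card_eq_fintype_card, Fintype.card_units]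

lemma pow_a (x : Aff F) (n : ℕ) : (x ^ n).a = x.a ^ n := by
  induction n with
  | zero => simp
  | succ n ih => rw [pow_succ, mul_a, ih, pow_succ]

lemma pow_v (x : Aff F) (n : ℕ) : ((x.a : F) - 1) * (x ^ n).v = ((x.a : F) ^ n - 1) * x.v := by
  induction n with
  | zero => simp
  | succ n ih =>
    rw [pow_succ, mul_v, mul_add, ih, pow_a]
    push_cast
    ring

lemma pow_eq_one [Finite F] (x : Aff F) (hx : x.a ≠ 1) : x ^ (Nat.card F - 1) = 1 := by
  have h1 : x.a ^ (Nat.card F - 1) = 1 := by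
    have := Fintype.ofFinite F
    classical
    rw [Nat.card_eq_fintype_card, ← Fintype.card_units]
    exact pow_card_eq_one
  ext
  · have h := pow_v x (Nat.card F - 1)
    have h2 : (x.a : F) ^ (Nat.card F - 1) = 1 := by
      rw [← Units.val_pow_eq_pow_val, h1, Units.val_one]
    rw [h2, sub_self, zero_mul] at h
    have h3 : (x.a : F) - 1 ≠ 0 := by
      intro h4
      exact hx (Units.ext (sub_eq_zero.mp h4))
    rw [(mul_eq_zero.mp h).resolve_left h3, one_v]
  · rw [pow_a, h1, one_a]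

/-- the centre is trivial if there is a nontrivial unit -/
lemma center_trivial (a₀ : Fˣ) (ha₀ : a₀ ≠ 1) (z : Aff F) (hz : ∀ x, x * z = z * x) : z = 1 := by
  have h1 := congrArg Aff.v (hz (dl a₀))
  have h2 := congrArg Aff.v (hz (tr 1))
  simp only [mul_v, dl_v, dl_a, tr_v, tr_a, mul_zero, add_zero, zero_add, Units.val_one, one_mul,
    mul_one] at h1 h2
  have h3 : ((a₀ : F) - 1) * z.v = 0 := by rw [sub_mul, h1, one_mul, sub_self]
  have h4 : (a₀ : F) - 1 ≠ 0 := fun h => ha₀ (Units.ext (sub_eq_zero.mp h))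
  have h5 : z.v = 0 := (mul_eq_zero.mp h3).resolve_left h4
  have h6 : (z.a : F) = 1 := by
    rw [h5] at h2
    simpa using h2.symm
  ext
  · exact h5
  · simpa using h6

section char2

variable [CharP F 2]

lemma sq_iff (x : Aff F) : x ^ 2 = 1 ↔ x.a = 1 := by
  constructor
  · intro h
    have h1 := congrArg Aff.a h
    rw [pow_a, one_a] at h1
    have h2 : (x.a : F) ^ 2 = 1 := by
      rw [← Units.val_pow_eq_pow_val, h1, Units.val_one]
    have h3 : ((x.a : F) + 1) ^ 2 = 0 := by
      rw [add_sq, h2]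
      have : (2 : F) = 0 := CharP.cast_eq_zero F 2
      linear_combination (1 + (x.a : F)) * this
    have h4 := pow_eq_zero_iff (n := 2) (by norm_num) |>.mp h3
    have h5 : (x.a : F) = 1 := by
      rw [← sub_eq_zero, CharTwo.sub_eq_add]; exact h4
    exact Units.ext h5
  · intro h
    ext
    · rw [sq, mul_v, h, one_v, Units.val_one, one_mul, CharTwo.add_self_eq_zero]
    · rw [pow_a, h, one_pow, one_a]

variable (α : MulAut (Aff F))

lemma aut_tr_a (v : F) : (α (tr v)).a = 1 := by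
  rw [← sq_iff, ← map_pow, (sq_iff (tr v)).mpr rfl, map_one]

lemma aut_tr (v : F) : α (tr v) = tr (α (tr v)).v := by
  ext
  · rfl
  · exact congrArg _ (aut_tr_a α v)

/-- the additive map induced on translations -/
def sg : F →+ F where
  toFun v := (α (tr v)).v
  map_zero' := by rw [tr_zero, map_one, one_v]
  map_add' v w := by
    rw [tr_add, map_mul, mul_v, aut_tr_a, Units.val_one, one_mul]

lemma aut_tr' (v : F) : α (tr v) = tr (sg α v) := aut_tr α v

lemma sg_semi (a : Fˣ) (v : F) : sg α (a * v) = (α (dl a)).a * sg α v := by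
  have h := congrArg α (dl_conj a v)
  rw [map_mul, map_mul, aut_tr', aut_tr'] at h
  have h1 := congrArg Aff.v h
  simp only [mul_v, tr_v, tr_a, Units.val_one, one_mul] at h1
  rw [add_comm] at h1
  exact (add_right_cancel h1).symm

variable {α} (hα : α (tr 1) = tr 1)
include hα

lemma sg_one : sg α 1 = 1 := by
  show (α (tr 1)).v = 1
  rw [hα]; rfl

lemma sg_unit (a : Fˣ) : sg α a = (α (dl a)).a := by
  have := sg_semi α a 1
  rwa [mul_one, sg_one hα, mul_one] at this

lemma sg_mul (x y : F) : sg α (x * y) = sg α x * sg α y := by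
  by_cases hx : x = 0
  · subst hx; simp
  · have := sg_semi α (Units.mk0 x hx) y
    rw [Units.val_mk0, ← sg_unit hα, Units.val_mk0] at this
    exact this

/-- the induced ring homomorphism -/
def sgR : F →+* F :=
  { sg α with
    map_one' := sg_one hα
    map_mul' := sg_mul hα }

lemma trace_sg [Finite F] [Algebra (ZMod 2) F] (x : F) :
    Algebra.trace (ZMod 2) F (sg α x) = Algebra.trace (ZMod 2) F x := by
  have hinj : Function.Injective (sgR hα) := (sgR hα).injective
  have hbij : Function.Bijective (sgR hα) := Finite.injective_iff_bijective.mp hinj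
  let e : F ≃ₐ[ZMod 2] F := AlgEquiv.ofRingEquiv (f := RingEquiv.ofBijective (sgR hα) hbij) (by
    intro r
    have : ((RingEquiv.ofBijective (sgR hα) hbij : F ≃+* F) : F →+* F).comp
      (algebraMap (ZMod 2) F) = algebraMap (ZMod 2) F := Subsingleton.elim _ _
    exact RingHom.congr_fun this r)
  exact Algebra.trace_eq_of_algEquiv e x

/-- `w(a) (1 - s(b)) = w(b) (1 - s(a))` -/
lemma w_symm (a b : Fˣ) : (α (dl a)).v * (1 - sg α b) = (α (dl b)).v * (1 - sg α a) := by
  have h1 := congrArg α (dl_mul a b)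
  have h2 := congrArg α (dl_mul b a)
  rw [mul_comm b a, h1, map_mul, map_mul] at h2
  have h3 := congrArg Aff.v h2
  simp only [mul_v] at h3
  rw [sg_unit hα, sg_unit hα]
  linear_combination h3

omit hα in
/-- the translation component of an automorphism, relative to `a₀` -/
noncomputable def cc (a₀ : Fˣ) (α : MulAut (Aff F)) : F := (α (dl a₀)).v / (1 - sg α a₀)

lemma one_sub_ne {a : Fˣ} (ha : a ≠ 1) : 1 - sg α a ≠ 0 := by
  intro h
  apply ha
  have h1 : sgR hα (a : F) = sgR hα 1 := by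
    rw [map_one]
    exact (sub_eq_zero.mp h).symm
  exact Units.ext ((sgR hα).injective h1)

lemma w_eq {a₀ : Fˣ} (ha₀ : a₀ ≠ 1) (a : Fˣ) :
    (α (dl a)).v = cc a₀ α * (1 - sg α a) := by
  have h := one_sub_ne hα ha₀
  have := w_symm hα a a₀
  unfold cc
  field_simp
  linear_combination this

omit hα in
lemma cc_mul {a₀ : Fˣ} (ha₀ : a₀ ≠ 1) {α β : MulAut (Aff F)} (hα : α (tr 1) = tr 1)
    (hβ : β (tr 1) = tr 1) : cc a₀ (α * β) = cc a₀ α + sg α (cc a₀ β) := by
  have hαβ : (α * β) (tr 1) = tr 1 := by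
    rw [MulAut.mul_apply, hβ, hα]
  have hs : ∀ x, sg (α * β) x = sg α (sg β x) := by
    intro x
    show ((α * β) (tr x)).v = _
    rw [MulAut.mul_apply, aut_tr' β, aut_tr' α]
    rfl
  have e1 : (α * β) (dl a₀) = tr (sg α (β (dl a₀)).v) * α (dl (β (dl a₀)).a) := by
    rw [MulAut.mul_apply, ← aut_tr', ← map_mul, ← eq_tr_mul_dl]
  have e2 := congrArg Aff.v e1
  rw [mul_v, tr_v, tr_a, Units.val_one, one_mul, w_eq hαβ ha₀, w_eq hβ ha₀, w_eq hα ha₀, hs,
    sg_mul hα, map_sub, sg_one hα, ← sg_unit hβ] at e2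
  have hne : 1 - sg α (sg β a₀) ≠ 0 := by
    rw [← hs]; exact one_sub_ne hαβ ha₀
  apply mul_right_cancel₀ hne
  linear_combination e2

omit hα in
/-- the trace of the translation component -/
noncomputable def Th [Algebra (ZMod 2) F] (a₀ : Fˣ) (α : MulAut (Aff F)) : ZMod 2 :=
  Algebra.trace (ZMod 2) F (cc a₀ α)

omit hα in
lemma Th_mul [Finite F] [Algebra (ZMod 2) F] {a₀ : Fˣ} (ha₀ : a₀ ≠ 1) {α β : MulAut (Aff F)}
    (hα : α (tr 1) = tr 1) (hβ : β (tr 1) = tr 1) : Th a₀ (α * β) = Th a₀ α + Th a₀ β := by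
  unfold Th
  rw [cc_mul ha₀ hα hβ, map_add, trace_sg hα]

omit hα in
lemma Th_conj [Finite F] [Algebra (ZMod 2) F] {a₀ : Fˣ} (ha₀ : a₀ ≠ 1) :
    Th a₀ (MulAut.conj (tr (1 : F))) = (Module.finrank (ZMod 2) F : ZMod 2) := by
  have h : cc a₀ (MulAut.conj (tr (1 : F))) = 1 := by
    have hc : MulAut.conj (tr (1 : F)) (tr 1) = tr 1 := by simp
    have hs : sg (MulAut.conj (tr (1 : F))) (a₀ : F) = a₀ := by
      rw [sg_unit hc]
      simp
    have hw := w_eq hc ha₀ a₀
    have h1 : (MulAut.conj (tr (1 : F)) (dl a₀)).v = 1 - a₀ := by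
      simp [MulAut.conj_apply]
      ring
    rw [h1, hs] at hw
    have hne : (1 : F) - a₀ ≠ 0 := by
      have := one_sub_ne hc ha₀
      rwa [hs] at this
    have h2 := mul_right_cancel₀ hne (show (1 : F) * (1 - a₀) = cc a₀ (MulAut.conj (tr (1 : F))) * (1 - a₀) by
      rw [one_mul]; exact hw)
    exact h2.symm
  unfold Th
  rw [h]
  have := Algebra.trace_algebraMap (R := ZMod 2) (S := F) 1
  rw [map_one] at this
  rw [this]
  simp

end char2

end Aff

end Pool.Agent.X265.LI
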