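import Pool.Agent.X265.LI.Aff

/-!
# The group `G` : restricted product of affine groups, with a diagonal translation adjoined
-/

namespace Pool.Agent.X265.LI

open Filter Aff

/-- odd primes -/
abbrev Ix := {f : ℕ // f.Prime ∧ f ≠ 2}

instance : Infinite Ix := by
  have h : {f : ℕ | f.Prime}.Infinite := Nat.infinite_setOfPred_prime
  have h2 : ({f : ℕ | f.Prime} \ {2}).Infinite := h.sdiff (Set.finite_singleton 2)
  exact h2.to_subtype

/-- the field with `2 ^ i` elements -/
abbrev Kf (i : Ix) : Type := GaloisField 2 i.1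

/-- the affine group -/
abbrev Bf (i : Ix) : Type := Aff (Kf i)

lemma card_Kf (i : Ix) : Nat.card (Kf i) = 2 ^ i.1 := GaloisField.card 2 i.1 i.2.1.ne_zero

instance (i : Ix) : Finite (Kf i) := Nat.finite_of_card_ne_zero (by rw [card_Kf]; positivity)

lemma exists_unit (i : Ix) : ∃ a : (Kf i)ˣ, a ≠ 1 := by
  by_contra hcon
  push Not at hcon
  have : Subsingleton (Kf i)ˣ := ⟨fun a b => by rw [hcon a, hcon b]⟩
  have h1 : Nat.card (Kf i)ˣ = 1 := Nat.card_of_subsingleton 1
  have := Fintype.ofFinite (Kf i)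
  classical
  rw [Nat.card_eq_fintype_card, Fintype.card_units, ← Nat.card_eq_fintype_card, card_Kf] at h1
  have h2 : 2 ^ 2 ≤ 2 ^ i.1 := Nat.pow_le_pow_right (by norm_num) i.2.1.two_le
  omega

/-- a nontrivial unit -/
noncomputable def a₀ (i : Ix) : (Kf i)ˣ := (exists_unit i).choose

lemma a₀_ne (i : Ix) : a₀ i ≠ 1 := (exists_unit i).choose_spec

/-- the full product -/
abbrev PP := ∀ i, Bf i

/-- the diagonal translation -/
noncomputable def gg : PP := fun _ => tr 1

lemma gg_mul_gg (i : Ix) : gg i * gg i = 1 := by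
  show tr 1 * tr 1 = 1
  rw [← tr_add, CharTwo.add_self_eq_zero, tr_zero]

lemma gg_inv (i : Ix) : (gg i)⁻¹ = gg i := by
  rw [inv_eq_iff_mul_eq_one, gg_mul_gg]

lemma gg_ne (i : Ix) : gg i ≠ 1 := by
  intro h
  have : (1 : Kf i) = 0 := congrArg Aff.v h
  exact one_ne_zero this

/-- the group of the example -/
def G : Subgroup PP where
  carrier := {x | (∀ᶠ i in cofinite, x i = 1) ∨ (∀ᶠ i in cofinite, x i = gg i)}
  mul_mem' := by
    rintro x y (hx | hx) (hy | hy)
    · left; filter_upwards [hx, hy] with i h1 h2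
      rw [Pi.mul_apply, h1, h2, one_mul]
    · right; filter_upwards [hx, hy] with i h1 h2
      rw [Pi.mul_apply, h1, h2, one_mul]
    · right; filter_upwards [hx, hy] with i h1 h2
      rw [Pi.mul_apply, h1, h2, mul_one]
    · left; filter_upwards [hx, hy] with i h1 h2
      rw [Pi.mul_apply, h1, h2, gg_mul_gg]
  one_mem' := Or.inl (Eventually.of_forall fun _ => rfl)
  inv_mem' := by
    rintro x (hx | hx)
    · left; filter_upwards [hx] with i h1
      rw [Pi.inv_apply, h1, inv_one]
    · right; filter_upwards [hx] with i h1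
      rw [Pi.inv_apply, h1, gg_inv]

/-- the diagonal translation as an element of `G` -/
noncomputable def gG : G := ⟨gg, Or.inr (Eventually.of_forall fun _ => rfl)⟩

/-- embedding of a factor -/
noncomputable def emb (i : Ix) : Bf i →* G := by
  classical
  exact (MonoidHom.mulSingle (fun i => Bf i) i).codRestrict G (by
    intro b
    left
    refine (Set.finite_singleton i).subset ?_
    intro j hj
    by_contra hne
    exact hj (Pi.mulSingle_eq_of_ne hne _))

lemma emb_same (i : Ix) (b : Bf i) : (emb i b).1 i = b := Pi.mulSingle_eq_same i b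

lemma emb_ne {i j : Ix} (h : j ≠ i) (b : Bf i) : (emb i b).1 j = 1 := Pi.mulSingle_eq_of_ne h b

lemma G_ext {x y : G} (h : ∀ i, x.1 i = y.1 i) : x = y := Subtype.ext (funext h)

lemma ord_lemma {i j : Ix} (h : j ≠ i) (y : Bf j) (hy : y ^ (2 ^ i.1 - 1) = 1) : y = 1 := by
  have h1 : orderOf y ∣ 2 ^ i.1 - 1 := orderOf_dvd_of_pow_eq_one hy
  have h2 : orderOf y ∣ 2 ^ j.1 * (2 ^ j.1 - 1) := by
    rw [← card_Kf j, ← Aff.natCard]
    exact orderOf_dvd_natCard y
  have hij : Nat.Coprime i.1 j.1 := (Nat.coprime_primes i.2.1 j.2.1).mpr (fun e => h (Subtype.ext e.symm))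
  have h3 : Nat.Coprime (2 ^ i.1 - 1) (2 ^ j.1 - 1) := by
    have := Nat.pow_sub_one_gcd_pow_sub_one 2 i.1 j.1
    rw [hij.gcd_eq_one] at this
    exact this
  have h4 : Nat.Coprime (2 ^ i.1 - 1) (2 ^ j.1) := by
    apply Nat.Coprime.pow_right
    rw [Nat.coprime_two_right]
    have : Even (2 ^ i.1) := (Nat.even_pow.mpr ⟨even_two, i.2.1.ne_zero⟩)
    have hpos : 0 < 2 ^ i.1 := by positivity
    obtain ⟨r, hr⟩ := this
    exact ⟨r - 1, by omega⟩
  have h5 := Nat.Coprime.mul_right h4 h3
  have h6 : orderOf y = 1 := Nat.eq_one_of_dvd_coprimes h5 h1 h2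
  exact orderOf_eq_one_iff.mp h6

lemma step2_aux (α : MulAut G) (i : Ix) (b : Bf i) (hb : b.a ≠ 1) :
    α (emb i b) = emb i ((α (emb i b)).1 i) := by
  apply G_ext
  intro j
  by_cases h : j = i
  · subst h; rw [emb_same]
  · rw [emb_ne h]
    apply ord_lemma h
    have h1 : b ^ (2 ^ i.1 - 1) = 1 := by
      rw [← card_Kf]; exact Aff.pow_eq_one b hb
    have h2 : α (emb i b) ^ (2 ^ i.1 - 1) = 1 := by
      rw [← map_pow, ← map_pow, h1, map_one, map_one]
    have h3 := congrArg (fun z : G => z.1 j) h2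
    exact h3

/-- component of an automorphism -/
noncomputable def cmp (α : MulAut G) (i : Ix) : Bf i →* Bf i :=
  ((Pi.evalMonoidHom (fun i => Bf i) i).comp G.subtype).comp
    ((α : G →* G).comp (emb i))

lemma cmp_apply (α : MulAut G) (i : Ix) (b : Bf i) : cmp α i b = (α (emb i b)).1 i := rfl

lemma step2 (α : MulAut G) (i : Ix) (b : Bf i) : α (emb i b) = emb i (cmp α i b) := by
  by_cases hb : b.a = 1
  · have e : b = (⟨b.v, a₀ i⟩ : Bf i) * ⟨0, (a₀ i)⁻¹⟩ := by
      ext
      · simp
      · simp [hb]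
    have h1 := step2_aux α i ⟨b.v, a₀ i⟩ (a₀_ne i)
    have h2 := step2_aux α i ⟨0, (a₀ i)⁻¹⟩ (by
      intro h; exact a₀_ne i (inv_eq_one.mp h))
    rw [e, map_mul, map_mul, h1, h2, map_mul, map_mul]
    rfl
  · exact step2_aux α i b hb

lemma cmp_mul (α β : MulAut G) (i : Ix) (b : Bf i) : cmp (α * β) i b = cmp α i (cmp β i b) := by
  rw [cmp_apply, MulAut.mul_apply, step2 β, cmp_apply α]

lemma cmp_one (i : Ix) (b : Bf i) : cmp 1 i b = b := by
  rw [cmp_apply, MulAut.one_apply, emb_same]

/-- components as automorphisms -/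
noncomputable def rho (i : Ix) : MulAut G →* MulAut (Bf i) where
  toFun α :=
    { toFun := cmp α i
      invFun := cmp α⁻¹ i
      left_inv := fun b => by rw [← cmp_mul, inv_mul_cancel, cmp_one]
      right_inv := fun b => by rw [← cmp_mul, mul_inv_cancel, cmp_one]
      map_mul' := map_mul _ }
  map_one' := by
    apply MulEquiv.ext
    intro b
    exact cmp_one i b
  map_mul' α β := by
    apply MulEquiv.ext
    intro b
    exact cmp_mul α β i b

lemma rho_apply (i : Ix) (α : MulAut G) (b : Bf i) : rho i α b = cmp α i b := rfl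

lemma step3 (α : MulAut G) (x : G) (i : Ix) : (α x).1 i = rho i α (x.1 i) := by
  set x' : G := (emb i (x.1 i))⁻¹ * x with hx'
  have h1 : x'.1 i = 1 := by
    show ((emb i (x.1 i)).1 i)⁻¹ * x.1 i = 1
    rw [emb_same, inv_mul_cancel]
  have h2 : ∀ b : Bf i, emb i b * x' = x' * emb i b := by
    intro b
    apply G_ext
    intro j
    show (emb i b).1 j * x'.1 j = x'.1 j * (emb i b).1 j
    by_cases h : j = i
    · subst h; rw [h1, mul_one, one_mul]
    · rw [emb_ne h, mul_one, one_mul]
  have h3 : (α x').1 i = 1 := by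
    apply Aff.center_trivial (a₀ i) (a₀_ne i)
    intro c
    obtain ⟨b, rfl⟩ := (rho i α).surjective c
    have h4 := congrArg α (h2 b)
    rw [map_mul α (emb i b), map_mul α x', step2] at h4
    have h5 := congrArg (fun z : G => z.1 i) h4
    have h6 : (emb i (cmp α i b)).1 i * (α x').1 i = (α x').1 i * (emb i (cmp α i b)).1 i := h5
    rw [emb_same] at h6
    exact h6
  have h7 : x = emb i (x.1 i) * x' := by rw [hx', mul_inv_cancel_left]
  have h8 : (α x).1 i = (α (emb i (x.1 i))).1 i * (α x').1 i := by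
    conv_lhs => rw [h7, map_mul]
    rfl
  rw [h8, h3, mul_one]
  rfl

lemma step4 (α : MulAut G) : ∀ᶠ i in cofinite, rho i α (gg i) = gg i := by
  have h3 : ∀ i, (α gG).1 i = rho i α (gg i) := fun i => step3 α gG i
  rcases (α gG).2 with h | h
  · exfalso
    obtain ⟨i, hi⟩ := h.exists
    rw [h3] at hi
    exact gg_ne i ((MulEquiv.map_eq_one_iff _).mp hi)
  · filter_upwards [h] with i hi
    rw [← h3, hi]

section integral

variable {H : Type*} [Group H] (e : commutator H ≃* G)

/-- the conjugation action of an integral -/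
noncomputable def cj : H →* MulAut G := (MulAut.congr e).toMonoidHom.comp MulAut.conjNormal

lemma cj_apply (h : H) (x : G) :
    cj e h x = e (MulAut.conjNormal h (e.symm x)) := rfl

lemma cj_comm (k : commutator H) : cj e k = MulAut.conj (e k) := by
  apply MulEquiv.ext
  intro x
  rw [cj_apply, MulAut.conj_apply]
  have : MulAut.conjNormal (k : H) (e.symm x) = k * e.symm x * k⁻¹ := by
    apply Subtype.ext
    rw [MulAut.conjNormal_apply]
    rfl
  rw [this]
  simp

/-- automorphisms of the factor fixing the translation by one -/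
noncomputable def stab (i : Ix) : Subgroup (MulAut (Bf i)) where
  carrier := {α | α (tr 1) = tr 1}
  mul_mem' := by
    intro α β hα hβ
    show (α * β) (tr 1) = tr 1
    rw [MulAut.mul_apply, show β (tr 1) = tr 1 from hβ, show α (tr 1) = tr 1 from hα]
  one_mem' := rfl
  inv_mem' := by
    intro α hα
    show α⁻¹ (tr 1) = tr 1
    have : α (tr 1) = tr 1 := hα
    conv_lhs => rw [← this]
    exact α.symm_apply_apply _

/-- elements acting on the factor `i` and fixing the translation by one -/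
noncomputable def St (i : Ix) : Subgroup H := (stab i).comap ((rho i).comp (cj e))

lemma mem_St (i : Ix) (h : H) : h ∈ St e i ↔ rho i (cj e h) (tr 1) = tr 1 := Iff.rfl

lemma ev_St (h : H) : ∀ᶠ i in cofinite, h ∈ St e i := step4 (cj e h)

lemma step5 (k : H) (hk : k ∈ commutator H) : ∀ᶠ i in cofinite, k ∈ ⁅St e i, St e i⁆ := by
  rw [commutator_eq_closure] at hk
  induction hk using Subgroup.closure_induction with
  | mem x hx =>
    obtain ⟨a, b, rfl⟩ := hx
    filter_upwards [ev_St e a, ev_St e b] with i h1 h2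
    exact Subgroup.commutator_mem_commutator h1 h2
  | one => exact Eventually.of_forall fun i => Subgroup.one_mem _
  | mul x y _ _ hx hy =>
    filter_upwards [hx, hy] with i h1 h2
    exact Subgroup.mul_mem _ h1 h2
  | inv x _ hx =>
    filter_upwards [hx] with i h1
    exact Subgroup.inv_mem _ h1

/-- the trace invariant -/
noncomputable def Tt (i : Ix) (h : H) : ZMod 2 := Th (a₀ i) (rho i (cj e h))

lemma Tt_mul (i : Ix) {x y : H} (hx : x ∈ St e i) (hy : y ∈ St e i) :
    Tt e i (x * y) = Tt e i x + Tt e i y := by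
  unfold Tt
  rw [map_mul, map_mul]
  exact Th_mul (a₀_ne i) hx hy

lemma Tt_one (i : Ix) : Tt e i 1 = 0 := by
  have := Tt_mul e i (Subgroup.one_mem (St e i)) (Subgroup.one_mem (St e i))
  rw [one_mul] at this
  exact left_eq_add.mp this

lemma Tt_inv (i : Ix) {x : H} (hx : x ∈ St e i) : Tt e i x⁻¹ = -Tt e i x := by
  have := Tt_mul e i hx (Subgroup.inv_mem _ hx)
  rw [mul_inv_cancel, Tt_one] at this
  linear_combination -this

/-- elements of the stabiliser with vanishing trace invariant -/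
noncomputable def Mi (i : Ix) : Subgroup H where
  carrier := {h | h ∈ St e i ∧ Tt e i h = 0}
  mul_mem' := by
    rintro x y ⟨hx, hx'⟩ ⟨hy, hy'⟩
    refine ⟨Subgroup.mul_mem _ hx hy, ?_⟩
    rw [Tt_mul e i hx hy, hx', hy', add_zero]
  one_mem' := ⟨Subgroup.one_mem _, Tt_one e i⟩
  inv_mem' := by
    rintro x ⟨hx, hx'⟩
    refine ⟨Subgroup.inv_mem _ hx, ?_⟩
    rw [Tt_inv e i hx, hx', neg_zero]

lemma comm_le_Mi (i : Ix) : ⁅St e i, St e i⁆ ≤ Mi e i := by
  rw [Subgroup.commutator_le]
  intro x hx y hy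
  have hxi := Subgroup.inv_mem _ hx
  have hyi := Subgroup.inv_mem _ hy
  refine ⟨?_, ?_⟩
  · rw [commutatorElement_def]
    exact Subgroup.mul_mem _ (Subgroup.mul_mem _ (Subgroup.mul_mem _ hx hy) hxi) hyi
  · rw [commutatorElement_def,
      Tt_mul e i (Subgroup.mul_mem _ (Subgroup.mul_mem _ hx hy) hxi) hyi,
      Tt_mul e i (Subgroup.mul_mem _ hx hy) hxi, Tt_mul e i hx hy, Tt_inv e i hx, Tt_inv e i hy]
    ring

include e in
lemma no_integral : False := by
  obtain ⟨i, hi⟩ := (step5 e _ (e.symm gG).2).exists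
  have h1 : Th (a₀ i) (rho i (cj e (e.symm gG))) = 0 := (comm_le_Mi e i hi).2
  rw [cj_comm, e.apply_symm_apply] at h1
  have h2 : rho i (MulAut.conj gG) = MulAut.conj (tr (1 : Kf i)) := by
    apply MulEquiv.ext
    intro b
    rw [rho_apply, cmp_apply, MulAut.conj_apply, MulAut.conj_apply]
    show gg i * (emb i b).1 i * (gg i)⁻¹ = _
    rw [emb_same]
    rfl
  rw [h2, Th_conj (a₀_ne i)] at h1
  rw [GaloisField.finrank 2 i.2.1.ne_zero] at h1
  rw [ZMod.natCast_eq_zero_iff] at h1
  exact i.2.2 ((Nat.prime_dvd_prime_iff_eq Nat.prime_two i.2.1).mp h1).symm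

end integral

end Pool.Agent.X265.LI
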