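import Pool.Agent.X265.LI.Glob

/-!
# Local integrability
-/

namespace Pool.Agent.X265.LI

open Filter Aff
open scoped commutatorElement

/-- there is an integral, given by an embedding -/
def Emb (G : Type) [Group G] : Prop :=
  ∃ (H : Type) (_ : Group H) (j : G →* H), Function.Injective j ∧ j.range = commutator H

lemma Emb.equiv {G : Type} [Group G] (h : Emb G) :
    ∃ (H : Type) (_ : Group H), Nonempty (commutator H ≃* G) := by
  obtain ⟨H, _, j, hj, hr⟩ := h
  exact ⟨H, inferInstance, ⟨((MonoidHom.ofInjective hj).trans (MulEquiv.subgroupCongr hr)).symm⟩⟩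

lemma Emb.of_equiv {G G' : Type} [Group G] [Group G'] (h : Emb G) (f : G' ≃* G) : Emb G' := by
  obtain ⟨H, _, j, hj, hr⟩ := h
  refine ⟨H, inferInstance, j.comp f.toMonoidHom, hj.comp f.injective, ?_⟩
  rw [← hr]
  ext x
  constructor
  · rintro ⟨y, rfl⟩; exact ⟨f y, rfl⟩
  · rintro ⟨y, rfl⟩; exact ⟨f.symm y, by simp⟩

lemma Emb.prod {G₁ G₂ : Type} [Group G₁] [Group G₂] (h₁ : Emb G₁) (h₂ : Emb G₂) :
    Emb (G₁ × G₂) := by
  obtain ⟨H₁, _, j₁, hj₁, hr₁⟩ := h₁
  obtain ⟨H₂, _, j₂, hj₂, hr₂⟩ := h₂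
  refine ⟨H₁ × H₂, inferInstance, j₁.prodMap j₂, hj₁.prodMap hj₂, ?_⟩
  have h : commutator (H₁ × H₂) = (commutator H₁).prod (commutator H₂) := by
    have := Subgroup.commutator_prod_prod (⊤ : Subgroup H₁) (⊤ : Subgroup H₁) (⊤ : Subgroup H₂)
      (⊤ : Subgroup H₂)
    rw [Subgroup.top_prod_top] at this
    exact this
  rw [h, ← hr₁, ← hr₂]
  ext ⟨x, y⟩
  constructor
  · rintro ⟨⟨a, b⟩, hab⟩
    exact ⟨⟨a, congrArg Prod.fst hab⟩, ⟨b, congrArg Prod.snd hab⟩⟩
  · rintro ⟨⟨a, ha⟩, ⟨b, hb⟩⟩
    exact ⟨(a, b), Prod.ext ha hb⟩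

lemma Emb.pi {ι : Type} [Finite ι] {G : ι → Type} [∀ i, Group (G i)] (h : ∀ i, Emb (G i)) :
    Emb (∀ i, G i) := by
  choose H hH j hj hr using h
  refine ⟨∀ i, H i, inferInstance, MonoidHom.pi fun i => (j i).comp (Pi.evalMonoidHom G i), ?_, ?_⟩
  · intro x y hxy
    funext i
    exact hj i (congrFun hxy i)
  · have h : commutator (∀ i, H i) = Subgroup.pi Set.univ (fun i => commutator (H i)) := by
      have := Subgroup.commutator_pi_pi_of_finite (fun i => (⊤ : Subgroup (H i)))
        (fun i => (⊤ : Subgroup (H i)))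
      rw [Subgroup.pi_top] at this
      exact this
    rw [h]
    ext x
    constructor
    · rintro ⟨y, rfl⟩ i _
      show j i (y i) ∈ commutator (H i)
      rw [← hr]
      exact ⟨y i, rfl⟩
    · intro hx
      have hx' : ∀ i, ∃ y, j i y = x i := by
        intro i
        have h1 : x i ∈ commutator (H i) := hx i (Set.mem_univ i)
        rw [← hr i] at h1
        exact h1
      choose y hy using hx'
      exact ⟨y, funext hy⟩

/-- dihedral integral of the group of order two -/
lemma emb_C2 : Emb (Multiplicative (ZMod 2)) := by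
  let j : Multiplicative (ZMod 2) →* DihedralGroup 4 :=
    { toFun := fun z => if z = 1 then 1 else DihedralGroup.r 2
      map_one' := by simp
      map_mul' := by decide }
  refine ⟨DihedralGroup 4, inferInstance, j, ?_, ?_⟩
  · intro x y
    revert x y
    decide
  · apply le_antisymm
    · rintro _ ⟨z, rfl⟩
      show (if z = 1 then (1 : DihedralGroup 4) else DihedralGroup.r 2) ∈ _
      split_ifs
      · exact Subgroup.one_mem _
      · have : (DihedralGroup.r 2 : DihedralGroup 4) =
            ⁅(DihedralGroup.r 1 : DihedralGroup 4), (DihedralGroup.sr 0 : DihedralGroup 4)⁆ := by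
          decide
        rw [this]
        exact Subgroup.commutator_mem_commutator (Subgroup.mem_top _) (Subgroup.mem_top _)
    · rw [commutator_def, Subgroup.commutator_le]
      have : ∀ a b : DihedralGroup 4, ∃ z, j z = ⁅a, b⁆ := by decide
      intro a _ b _
      exact this a b

/-- action of a field automorphism on the affine group -/
def mapAff {F : Type} [Field F] (σ : F ≃+* F) : MulAut (Aff F) where
  toFun x := ⟨σ x.v, Units.mapEquiv σ.toMulEquiv x.a⟩
  invFun x := ⟨σ.symm x.v, Units.mapEquiv σ.symm.toMulEquiv x.a⟩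
  left_inv x := by ext <;> simp
  right_inv x := by ext <;> simp
  map_mul' x y := by ext <;> simp

lemma emb_Aff {F : Type} [Field F] [Finite F] [CharP F 2] (a₀ : Fˣ) (ha₀ : a₀ ≠ 1) :
    Emb (Aff F) := by
  have := Fintype.ofFinite F
  let φ : Multiplicative ℤ →* MulAut (Aff F) := zpowersHom _ (mapAff (frobeniusEquiv F 2))
  refine ⟨Aff F ⋊[φ] Multiplicative ℤ, inferInstance, SemidirectProduct.inl,
    SemidirectProduct.inl_injective, ?_⟩
  apply le_antisymm
  · rintro _ ⟨x, rfl⟩
    rw [eq_tr_mul_dl x, map_mul]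
    refine Subgroup.mul_mem _ ?_ ?_
    · have h0 : (a₀ : F) - 1 ≠ 0 := fun h => ha₀ (Units.ext (sub_eq_zero.mp h))
      have h1 : (tr x.v : Aff F) = ⁅dl a₀, tr (x.v / ((a₀ : F) - 1))⁆ := by
        rw [commutatorElement_def]
        ext
        · simp
          field_simp
          ring
        · simp
      rw [h1, map_commutatorElement]
      exact Subgroup.commutator_mem_commutator (Subgroup.mem_top _) (Subgroup.mem_top _)
    · have h2 : φ (Multiplicative.ofAdd 1) (dl x.a) = dl (x.a * x.a) := by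
        have : φ (Multiplicative.ofAdd 1) = mapAff (frobeniusEquiv F 2) := by
          simp [φ]
        rw [this]
        ext
        · simp [mapAff]
        · simp [mapAff, frobenius_def, sq]
      have h3 := SemidirectProduct.inl_aut (φ := φ) (Multiplicative.ofAdd 1) (dl x.a)
      rw [h2, dl_mul, map_mul] at h3
      have h4 : (SemidirectProduct.inl (dl x.a) : Aff F ⋊[φ] Multiplicative ℤ) =
          ⁅(SemidirectProduct.inr (Multiplicative.ofAdd (1 : ℤ)) : Aff F ⋊[φ] Multiplicative ℤ),
            (SemidirectProduct.inl (dl x.a) : Aff F ⋊[φ] Multiplicative ℤ)⁆ := by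
        rw [commutatorElement_def, ← map_inv, ← h3, mul_inv_cancel_right]
      rw [h4]
      exact Subgroup.commutator_mem_commutator (Subgroup.mem_top _) (Subgroup.mem_top _)
  · rw [SemidirectProduct.range_inl_eq_ker_rightHom]
    exact Abelianization.commutator_subset_ker _

/-- the local pieces -/
noncomputable def jj (F : Finset Ix) : (∀ i : F, Bf i) × Multiplicative (ZMod 2) →* G where
  toFun p := ⟨fun i => if h : i ∈ F then p.1 ⟨i, h⟩ else tr (algebraMap (ZMod 2) (Kf i) p.2.toAdd), by
    have h0 : ∀ᶠ i in cofinite, i ∉ F := F.finite_toSet.eventually_cofinite_notMem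
    obtain ⟨x, z⟩ := p
    obtain h | h : z.toAdd = 0 ∨ z.toAdd = 1 := by
      generalize z.toAdd = t
      revert t; decide
    · left
      filter_upwards [h0] with i hi
      rw [dif_neg hi, h, map_zero, tr_zero]
    · right
      filter_upwards [h0] with i hi
      rw [dif_neg hi, h, map_one]
      rfl⟩
  map_one' := by
    apply G_ext
    intro i
    show (if h : i ∈ F then _ else _) = (1 : Bf i)
    split_ifs
    · rfl
    · show tr (algebraMap (ZMod 2) (Kf i) 0) = 1
      rw [map_zero, tr_zero]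
  map_mul' p q := by
    apply G_ext
    intro i
    by_cases h : i ∈ F
    · show (if h : i ∈ F then (p * q).1 ⟨i, h⟩ else
        tr (algebraMap (ZMod 2) (Kf i) (p * q).2.toAdd)) = (if h : i ∈ F then p.1 ⟨i, h⟩ else
        tr (algebraMap (ZMod 2) (Kf i) p.2.toAdd)) * (if h : i ∈ F then q.1 ⟨i, h⟩ else
        tr (algebraMap (ZMod 2) (Kf i) q.2.toAdd))
      rw [dif_pos h, dif_pos h, dif_pos h]
      rfl
    · show (if h : i ∈ F then (p * q).1 ⟨i, h⟩ else
        tr (algebraMap (ZMod 2) (Kf i) (p * q).2.toAdd)) = (if h : i ∈ F then p.1 ⟨i, h⟩ else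
        tr (algebraMap (ZMod 2) (Kf i) p.2.toAdd)) * (if h : i ∈ F then q.1 ⟨i, h⟩ else
        tr (algebraMap (ZMod 2) (Kf i) q.2.toAdd))
      rw [dif_neg h, dif_neg h, dif_neg h, ← tr_add, ← map_add]
      rfl

lemma jj_in (F : Finset Ix) (p) {i : Ix} (h : i ∈ F) : (jj F p).1 i = p.1 ⟨i, h⟩ := by
  show (if h : i ∈ F then _ else _) = _
  rw [dif_pos h]

lemma jj_out (F : Finset Ix) (p) {i : Ix} (h : i ∉ F) :
    (jj F p).1 i = tr (algebraMap (ZMod 2) (Kf i) p.2.toAdd) := by
  show (if h : i ∈ F then _ else _) = _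
  rw [dif_neg h]

lemma jj_inj (F : Finset Ix) : Function.Injective (jj F) := by
  intro p q hpq
  have h : ∀ i, (jj F p).1 i = (jj F q).1 i := fun i => by rw [hpq]
  apply Prod.ext
  · funext ⟨i, hi⟩
    have := h i
    rwa [jj_in F p hi, jj_in F q hi] at this
  · obtain ⟨i, hi⟩ := Infinite.exists_notMem_finset F
    have := h i
    rw [jj_out F p hi, jj_out F q hi] at this
    have h2 : algebraMap (ZMod 2) (Kf i) p.2.toAdd = algebraMap (ZMod 2) (Kf i) q.2.toAdd :=
      congrArg Aff.v this
    exact Multiplicative.toAdd.injective ((algebraMap (ZMod 2) (Kf i)).injective h2)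

lemma mem_range_jj (x : G) : ∃ F₀ : Finset Ix, ∀ F : Finset Ix, F₀ ⊆ F → x ∈ (jj F).range := by
  rcases x.2 with h | h
  · have h' : {i | ¬ (x.1 i = 1)}.Finite := h
    refine ⟨h'.toFinset, fun F hF => ⟨(fun i => x.1 i, 1), ?_⟩⟩
    apply G_ext
    intro i
    by_cases hi : i ∈ F
    · rw [jj_in F _ hi]
    · rw [jj_out F _ hi]
      have : i ∉ h'.toFinset := fun h'' => hi (hF h'')
      rw [Set.Finite.mem_toFinset] at this
      have h3 : x.1 i = 1 := by
        by_contra hne
        exact this hne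
      rw [h3]
      show tr (algebraMap (ZMod 2) (Kf i) 0) = 1
      rw [map_zero, tr_zero]
  · have h' : {i | ¬ (x.1 i = gg i)}.Finite := h
    refine ⟨h'.toFinset, fun F hF => ⟨(fun i => x.1 i, Multiplicative.ofAdd 1), ?_⟩⟩
    apply G_ext
    intro i
    by_cases hi : i ∈ F
    · rw [jj_in F _ hi]
    · rw [jj_out F _ hi]
      have : i ∉ h'.toFinset := fun h'' => hi (hF h'')
      rw [Set.Finite.mem_toFinset] at this
      have h3 : x.1 i = gg i := by
        by_contra hne
        exact this hne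
      rw [h3]
      show tr (algebraMap (ZMod 2) (Kf i) 1) = gg i
      rw [map_one]; rfl

lemma finite_sub (S : Set G) (hS : S.Finite) : ∃ F : Finset Ix, S ⊆ (jj F).range := by
  classical
  choose F₀ hF₀ using mem_range_jj
  refine ⟨hS.toFinset.biUnion F₀, fun x hx => hF₀ x _ ?_⟩
  exact Finset.subset_biUnion_of_mem F₀ (hS.mem_toFinset.mpr hx)

lemma emb_piece (F : Finset Ix) : Emb ((∀ i : F, Bf i) × Multiplicative (ZMod 2)) :=
  (Emb.pi fun i : F => emb_Aff (a₀ i) (a₀_ne i)).prod emb_C2

end Pool.Agent.X265.LI
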